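import Pool.Agent.J4H13.K5.Tab

/-!
# Project K5 (helper87): (C1)
-/

set_option autoImplicit false

namespace Pool.Agent.J4H13.K5

open Pool.Agent.J4H87.K5

def In (k : ℕ) : Prop := ∀ i j : Fin 5, i < j → fP k i ≠ fP k j

instance (k : ℕ) : Decidable (In k) := by unfold In; infer_instance

def v1 (S : ℕ) : ℕ := (A1n >>> (7 * S)) &&& 127

def v2 (S e : ℕ) : ℕ := (A3n >>> (7 * (10 * ((A2n >>> (5 * S)) &&& 31) + e))) &&& 127

def bt' (S k : ℕ) (i j : Fin 5) : Bool := S.testBit (code (fP k i) (fP k j)).1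

def PA (S k : ℕ) : Prop := In k ∧ bt' S k 0 1 = true ∧ bt' S k 1 2 = true ∧ bt' S k 3 4 = true

def PB (S k : ℕ) (e : Fin 10) : Prop := In k ∧ code (fP k 0) (fP k 2) = e ∧
  bt' S k 0 1 = true ∧ code (fP k 0) (fP k 1) ≠ e ∧ bt' S k 2 3 = true ∧ code (fP k 2) (fP k 3) ≠ e ∧
  (bt' S k 0 3 = false ∨ bt' S k 1 2 = false ∨ bt' S k 1 3 = false) ∧
  ∀ w : Fin 5, w ≠ 4 → bt' S k w 4 = false

instance (S k : ℕ) : Decidable (PA S k) := by unfold PA; infer_instance

instance (S k : ℕ) (e : Fin 10) : Decidable (PB S k e) := by unfold PB; infer_instance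

set_option maxRecDepth 100000 in
lemma big1 : ∀ S : Fin 1024, pc S.1 = 5 → PA S.1 (v1 S.1 - 1) ∨
    ∀ e : Fin 10, S.1.testBit e.1 = true → PB S.1 (v2 S.1 e.1) e := by
  decide +kernel

lemma pc_compl (S : ℕ) :
    pc S + ((Finset.univ : Finset (Fin 10)).filter fun j => S.testBit j.1 = false).card = 10 := by
  have key : ∀ b0 b1 b2 b3 b4 b5 b6 b7 b8 b9 : Bool,
      (b0.toNat + b1.toNat + b2.toNat + b3.toNat + b4.toNat + b5.toNat + b6.toNat + b7.toNat + b8.toNat +
        b9.toNat) + ((if b0 = false then 1 else 0) + ((if b1 = false then 1 else 0) +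
        ((if b2 = false then 1 else 0) + ((if b3 = false then 1 else 0) +
        ((if b4 = false then 1 else 0) + ((if b5 = false then 1 else 0) +
        ((if b6 = false then 1 else 0) + ((if b7 = false then 1 else 0) +
        ((if b8 = false then 1 else 0) + (if b9 = false then 1 else 0)))))))))) = 10 := by
    decide +kernel
  rw [Finset.card_filter]
  unfold pc
  simp only [Fin.sum_univ_succ, Fin.sum_univ_zero, add_zero]
  exact key (S.testBit 0) (S.testBit 1) (S.testBit 2) (S.testBit 3) (S.testBit 4) (S.testBit 5)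
    (S.testBit 6) (S.testBit 7) (S.testBit 8) (S.testBit 9)

/-- **(C1)** -/
theorem t_C1 : S_C1 := by
  classical
  intro m τ hτ
  obtain ⟨S₃, e₃, e₄, -, -, -, -, -, -, i4, f4, b5, c5, i5⟩ := chain hτ
  obtain ⟨S, hS⟩ : ∃ S, S = (S₃ ||| 2 ^ e₃.1) := ⟨_, rfl⟩
  rw [← hS] at i4 f4 b5 c5 i5
  have he4 : (S ||| 2 ^ e₄.1).testBit e₄.1 = true := by
    rw [Nat.testBit_or, Nat.testBit_two_pow]
    simp
  rcases big1 ⟨_, b5⟩ c5 with h | h
  · obtain ⟨hIn, h01, h12, h34⟩ := h
    obtain ⟨k, hk⟩ : ∃ k, k = v1 (S ||| 2 ^ e₄.1) - 1 := ⟨_, rfl⟩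
    simp only [← hk] at hIn h01 h12 h34
    have hinj := inj_of hIn
    refine ⟨mkP k hinj, Or.inl ?_⟩
    have hback : ∀ q : Sym2 (Fin 5), (q.map (mkP k hinj).symm).map (mkP k hinj) = q := by
      intro q
      rw [Sym2.map_map, Equiv.self_comp_symm, Sym2.map_id, id]
    refine ⟨(((Finset.univ : Finset (Fin 10)).filter fun j =>
      (S ||| 2 ^ e₄.1).testBit j.1 = false).image (fun j => (ed j).map (mkP k hinj).symm)), ?_, ?_, ?_⟩
    · rw [Finset.card_image_of_injective]
      · have := pc_compl (S ||| 2 ^ e₄.1)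
        omega
      · intro a b hab
        refine ed_inj a b ?_
        have h1 := congrArg (Sym2.map (mkP k hinj)) hab
        simp only [hback] at h1
        exact h1
    · intro q hq
      obtain ⟨j, -, rfl⟩ := Finset.mem_image.1 hq
      intro hd
      refine ed_diag j ?_
      rw [← hback (ed j)]
      revert hd
      generalize (ed j).map (mkP k hinj).symm = q
      induction q with
      | _ x y =>
        intro hd
        rw [Sym2.mk_isDiag_iff] at hd
        rw [Sym2.map_mk, Sym2.mk_isDiag_iff, hd]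
    · intro p hp q hq
      obtain ⟨j, hj, rfl⟩ := Finset.mem_image.1 hq
      rw [hback]
      rw [Finset.mem_filter] at hj
      have gen : ∀ a b : Fin 5, fP k a ≠ fP k b → bt' (S ||| 2 ^ e₄.1) k a b = true →
          τ (Sym2.map (mkP k hinj) s(a, b)) < τ (ed j) := by
        intro a b hab hb
        have h1 := i5 _ j hb hj.2
        rw [ed_code _ _ hab] at h1
        exact h1
      simp only [Finset.mem_insert, Finset.mem_singleton] at hp
      rcases hp with rfl | rfl | rfl
      · exact gen 0 1 (hIn 0 1 (by decide)) h01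
      · exact gen 1 2 (hIn 1 2 (by decide)) h12
      · exact gen 3 4 (hIn 3 4 (by decide)) h34
  · obtain ⟨hIn, h02, h01, n01, h23, n23, hh, h4⟩ := h e₄ he4
    obtain ⟨k, hk⟩ : ∃ k, k = v2 (S ||| 2 ^ e₄.1) e₄.1 := ⟨_, rfl⟩
    simp only [← hk] at hIn h02 h01 n01 h23 n23 hh h4
    have hinj := inj_of hIn
    have hne : ∀ a b : Fin 5, a ≠ b → fP k a ≠ fP k b := fun a b hab h => hab (hinj h)
    refine ⟨mkP k hinj, Or.inr ?_⟩
    have e02 : τ (Sym2.map (mkP k hinj) s(0, 2)) = τ (ed e₄) := by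
      rw [← h02, ed_code _ _ (hne 0 2 (by decide))]
      rfl
    have low : ∀ a b : Fin 5, a ≠ b → bt' (S ||| 2 ^ e₄.1) k a b = true →
        code (fP k a) (fP k b) ≠ e₄ →
        τ (Sym2.map (mkP k hinj) s(a, b)) < τ (Sym2.map (mkP k hinj) s(0, 2)) := by
      intro a b hab h1 h2
      rw [e02]
      have h3 : S.testBit (code (fP k a) (fP k b)).1 = true := by
        unfold bt' at h1
        rw [Nat.testBit_or, Nat.testBit_two_pow] at h1
        have h5 : decide (e₄.1 = (code (fP k a) (fP k b)).1) = false := by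
          rw [decide_eq_false_iff_not]
          intro h6
          exact h2 (Fin.ext h6).symm
        rw [h5, Bool.or_false] at h1
        exact h1
      have h4 := i4 _ e₄ h3 f4
      rw [ed_code _ _ (hne a b hab)] at h4
      exact h4
    have high : ∀ a b : Fin 5, a ≠ b → bt' (S ||| 2 ^ e₄.1) k a b = false →
        τ (Sym2.map (mkP k hinj) s(0, 2)) < τ (Sym2.map (mkP k hinj) s(a, b)) := by
      intro a b hab h1
      rw [e02]
      have h4 := i5 e₄ _ he4 h1
      rw [ed_code _ _ (hne a b hab)] at h4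
      exact h4
    obtain ⟨z, hz, hmin⟩ := Finset.exists_min_image
      ((Finset.univ : Finset (Fin 5)).filter fun w => w ≠ 4)
      (fun w => τ (Sym2.map (mkP k hinj) s(w, 4))) ⟨0, by decide⟩
    rw [Finset.mem_filter] at hz
    have hfin : ∀ h : Sym2 (Fin 5), h ∈ ({s(0, 3), s(1, 2), s(1, 3)} : Finset (Sym2 (Fin 5))) →
        τ (Sym2.map (mkP k hinj) s(0, 2)) < τ (h.map (mkP k hinj)) →
        ∃ h ∈ ({s(0, 3), s(1, 2), s(1, 3)} : Finset (Sym2 (Fin 5))), ∃ z : Fin 5, z ≠ 4 ∧
          τ (Sym2.map (mkP k hinj) s(0, 1)) < τ (Sym2.map (mkP k hinj) s(0, 2)) ∧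
          τ (Sym2.map (mkP k hinj) s(2, 3)) < τ (Sym2.map (mkP k hinj) s(0, 2)) ∧
          τ (Sym2.map (mkP k hinj) s(0, 2)) < τ (h.map (mkP k hinj)) ∧
          τ (Sym2.map (mkP k hinj) s(0, 2)) < τ (Sym2.map (mkP k hinj) s(z, 4)) ∧
          ∀ w : Fin 5, w ≠ 4 → w ≠ z →
            τ (Sym2.map (mkP k hinj) s(z, 4)) < τ (Sym2.map (mkP k hinj) s(w, 4)) := by
      intro h0 hm hlt
      refine ⟨h0, hm, z, hz.2, low 0 1 (by decide) h01 n01, low 2 3 (by decide) h23 n23, hlt,
        high z 4 hz.2 (h4 z hz.2), ?_⟩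
      intro w hw hwz
      refine lt_of_le_of_ne (hmin w (by rw [Finset.mem_filter]; exact ⟨Finset.mem_univ _, hw⟩)) ?_
      intro heq
      have hd : ∀ w : Fin 5, w ≠ 4 → ¬ (Sym2.map (mkP k hinj) s(w, 4)).IsDiag := by
        intro w hw hd
        rw [Sym2.map_mk, Sym2.mk_isDiag_iff] at hd
        exact hw ((mkP k hinj).injective hd)
      have h5 := hτ _ _ (hd z hz.2) (hd w hw) heq
      rw [Sym2.map_mk, Sym2.map_mk, Sym2.eq_iff] at h5
      rcases h5 with h5 | h5
      · exact hwz ((mkP k hinj).injective h5.1).symm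
      · exact hz.2 ((mkP k hinj).injective h5.1)
    rcases hh with hh | hh | hh
    · exact hfin s(0, 3) (by simp) (high 0 3 (by decide) hh)
    · exact hfin s(1, 2) (by simp) (high 1 2 (by decide) hh)
    · exact hfin s(1, 3) (by simp) (high 1 3 (by decide) hh)

end Pool.Agent.J4H13.K5
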