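import Pool.Agent.J4H13.K5.Tab

/-!
# Project K5 (helper87): (C2)
-/

set_option autoImplicit false

namespace Pool.Agent.J4H13.K5

open Pool.Agent.J4H87.K5

def pm (q : ℕ) : ℕ := (PMn >>> (10 * q)) &&& 1023

def wt (S : ℕ) : ℕ := (Wn >>> (11 * S)) &&& 2047

def Chk (k q S : ℕ) : Prop := ∀ i j : Fin 5, i < j → fP k i ≠ fP k j ∧
  (pm q).testBit (code i j).1 = S.testBit (code (fP k i) (fP k j)).1

instance (k q S : ℕ) : Decidable (Chk k q S) := by unfold Chk; infer_instance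

def Good (S : ℕ) : Prop := wt S % 16 < 10 ∧ Chk (wt S / 16) (wt S % 16) S

instance (S : ℕ) : Decidable (Good S) := by unfold Good; infer_instance

set_option maxRecDepth 100000 in
lemma big : ∀ S : Fin 1024, pc S.1 = 4 → Good S.1 ∨
    (∀ e : Fin 10, S.1.testBit e.1 = true → Good (S.1 ^^^ 2 ^ e.1)) ∨
    (∀ e : Fin 10, S.1.testBit e.1 = false → Good (S.1 ||| 2 ^ e.1)) := by
  decide +kernel

def patq (q : Fin 10) : Finset (Sym2 (Fin 5)) := pats.get (q.cast (by decide))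

lemma patq_mem (q : Fin 10) : patq q ∈ pats := List.get_mem _ _

lemma patq_bit : ∀ q : Fin 10, ∀ i j : Fin 5, i < j →
    ((pm q.1).testBit (code i j).1 = true ↔ s(i, j) ∈ patq q) := by
  decide +kernel

lemma patq_diag : ∀ q : Fin 10, ∀ p ∈ patq q, ¬ p.IsDiag := by decide +kernel

lemma finish {m : ℕ} {τ : Sym2 (Fin 5) → Fin m} {S : ℕ} (hI : Ini τ S) (hG : Good S) :
    ∃ σ : Equiv.Perm (Fin 5), ∃ F ∈ pats,
      ∀ p ∈ F, ∀ q : Sym2 (Fin 5), ¬ q.IsDiag → q ∉ F → τ (p.map σ) < τ (q.map σ) := by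
  obtain ⟨hq, hc⟩ := hG
  have hinj := inj_of fun i j hij => (hc i j hij).1
  refine ⟨mkP _ hinj, patq ⟨_, hq⟩, patq_mem _, ?_⟩
  intro p hp q hqd hqF
  have hpd := patq_diag _ p hp
  revert hp
  refine nd_ind (P := fun p => p ∈ patq ⟨_, hq⟩ → τ (p.map (mkP _ hinj)) < τ (q.map (mkP _ hinj))) ?_ p hpd
  intro i j hij hp
  revert hqF
  refine nd_ind (P := fun q => q ∉ patq ⟨_, hq⟩ →
    τ (s(i, j).map (mkP _ hinj)) < τ (q.map (mkP _ hinj))) ?_ q hqd
  intro i' j' hij' hqF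
  have h1 := (patq_bit ⟨_, hq⟩ i j hij).2 hp
  have h2 : (pm (wt S % 16)).testBit (code i' j').1 = false := by
    rw [Bool.eq_false_iff]
    intro h3
    exact hqF ((patq_bit ⟨_, hq⟩ i' j' hij').1 h3)
  have h3 := (hc i j hij).2
  have h4 := (hc i' j' hij').2
  simp only at h1
  rw [h1] at h3
  rw [h2] at h4
  have h5 := hI _ _ h3.symm h4.symm
  rw [ed_code _ _ (hc i j hij).1, ed_code _ _ (hc i' j' hij').1] at h5
  exact h5

/-- **(C2)** -/
theorem t_C2 : S_C2 := by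
  intro m τ hτ
  obtain ⟨S₃, e₃, e₄, -, -, i3, f3, b4, c4, i4, f4, -, -, i5⟩ := chain hτ
  rcases big ⟨_, b4⟩ c4 with h | h | h
  · exact finish i4 h
  · have hb : (S₃ ||| 2 ^ e₃.1).testBit e₃.1 = true := by
      rw [Nat.testBit_or, Nat.testBit_two_pow]
      simp
    have h1 := h e₃ hb
    have h2 : (S₃ ||| 2 ^ e₃.1) ^^^ 2 ^ e₃.1 = S₃ := by
      refine Nat.eq_of_testBit_eq fun j => ?_
      rw [Nat.testBit_xor, Nat.testBit_or, Nat.testBit_two_pow]
      by_cases hj : e₃.1 = j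
      · subst hj
        simp [f3]
      · simp [hj]
    simp only [h2] at h1
    exact finish i3 h1
  · exact finish i5 (h e₄ f4)

end Pool.Agent.J4H13.K5
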